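import Pool.Agent.MWA.StmtsQ

set_option autoImplicit false

namespace Pool.Agent.MWA.H59

open Pool.Agent.Helper14_MV Pool.Agent.Helper2_MV Pool.Agent.MVO Pool.Agent.MWL Pool.Agent.MWS

theorem lgp_exists {k i : ℕ} {b : ℕ → ℕ} (hdb : 2 ≤ deg k b) (hLb : Lst k b i) (hb1 : b i = 1) :
    ∃ p, p < i ∧ 1 ≤ b p := by
  obtain ⟨hik, hbi, hgtb⟩ := hLb
  by_contra h
  push Not at h
  have h1 : deg k b = b i := by
    unfold deg
    refine Finset.sum_eq_single i ?_ ?_
    · intro t ht hti
      rcases lt_or_gt_of_ne hti with h2 | h2
      · have := h t h2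
        omega
      · exact hgtb t h2 (by have := Finset.mem_range.1 ht; omega)
    · intro h2
      exact absurd (Finset.mem_range.2 (by omega)) h2
  omega

theorem lgp (hHAP : HapStmt) (hABP : AbpStmt) : LgpStmt := by
  intro n θ hn hap k b i x hdb hLb hb1 hx hJ hno hi
  obtain ⟨p, hpi, hbp⟩ := lgp_exists hdb hLb hb1
  obtain ⟨hik, hbi, hgtb⟩ := hLb
  have hle : ∀ r < i, b r ≤ 1 := by
    intro r hr
    by_contra h
    exact hno r hr ((hHAP n θ hn hap).1 k b r (by omega) (by omega))
  -- two nonempty blocks before `i` are impossible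
  have key : ∀ r0 r1, r0 < r1 → r1 < i → 1 ≤ b r0 → 1 ≤ b r1 → False := by
    intro r0 r1 h01 h1i hb0 hb1'
    have h := (hABP n θ).2 1 1 1 k r0 r1 i x b (by omega) hJ h01.le h1i.le hik (by
      intro t _
      by_cases e0 : t = r0
      · subst e0
        rw [if_pos rfl, if_neg (by omega), if_neg (by omega)]
        omega
      · rw [if_neg e0]
        by_cases e1 : t = r1
        · subst e1
          rw [if_pos rfl, if_neg (by omega)]
          omega
        · rw [if_neg e1]
          by_cases e2 : t = i
          · subst e2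
            rw [if_pos rfl]
            omega
          · rw [if_neg e2]
            omega)
    rcases hx with rfl | rfl
    · rw [if_pos rfl] at h
      exact hno r0 (by omega) h
    · rw [if_neg (by norm_num), if_neg (by norm_num)] at h
      exact hi rfl h
  refine ⟨p, hpi, hik, ?_⟩
  intro r hrk
  by_cases hrp : r = p
  · subst hrp
    rw [if_pos (Or.inl rfl)]
    have := hle r hpi
    omega
  · by_cases hri : r = i
    · subst hri
      rw [if_pos (Or.inr rfl), hb1]
    · rw [if_neg (by tauto)]
      by_contra h0
      have hri' : r < i := by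
        by_contra h
        exact h0 (hgtb r (by omega) hrk)
      rcases lt_or_gt_of_ne hrp with h1 | h1
      · exact key r p h1 hpi (by omega) hbp
      · exact key p r h1 hri' hbp (by omega)

end Pool.Agent.MWA.H59
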