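import Pool.Agent.MWA.StmtsB

set_option autoImplicit false

namespace Pool.Agent.MWA.H59

open Pool.Agent.Helper14_MV Pool.Agent.Helper2_MV Pool.Agent.MVO Pool.Agent.MWL Pool.Agent.MWS

theorem ra3 (hHAB : HabStmt) (hHVR : HvrStmt) (hUSE : UseStmt) (hBTF : BtfStmt)
    (hBTA : BtaStmt) : Ra3Stmt := by
  intro β hA hR hA1 θ hle _ k a b i j hda hdb hLa hLb hji hAb _
  left
  have hAθ : BsA θ := hA.mono hle
  have hRθ : Rr θ := hle _ _ hR
  obtain ⟨hik, hai, hgt⟩ := hLa
  obtain ⟨-, hbi, hgtb⟩ := hLb
  have hAi : AbF θ k a i := hHVR θ hRθ k a i j hji hik hai hAb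
  have haL : L1 θ k a (a2 a i) := hAi
  by_cases hB : AbF θ k b i
  · have hbL : L1 θ k b (a2 b i) := hB
    refine (hBTF θ k a (a2 a i) b (a2 b i) haL hbL).2 i ?_
    refine (hBTA θ hAθ).2.2 k (a2 a i) (a2 b i) i hik ?_ ?_
    · simp [a2]
    · simp [a2]
  · have hb1 : b i = 1 := by
      by_contra h
      exact hB ((hHAB θ hAθ.ap).1 k b i hik (by omega))
    have hex : ∃ p, p < i ∧ 1 ≤ b p := by
      by_contra h
      push Not at h
      have h1 : deg k b = b i := by
        unfold deg
        refine Finset.sum_eq_single i ?_ ?_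
        · intro t ht hti
          rcases lt_or_gt_of_ne hti with h2 | h2
          · have := h t h2
            omega
          · exact hgtb t h2 (by have := Finset.mem_range.1 ht; omega)
        · intro h2
          exact absurd (Finset.mem_range.2 (by omega)) h2
      omega
    obtain ⟨p, hpi, hbp⟩ := hex
    have h1 : Bt β k b (a2 a i) i := by
      refine (hUSE β hA.cl).1 1 1 0 2 k p i b (a2 a i) (by norm_num) (by norm_num) (by norm_num)
        (by norm_num) hA1 hpi.le hik ?_ ?_
      · intro t _
        by_cases h2 : t = p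
        · subst h2
          rw [if_pos rfl, if_neg (by omega)]
          omega
        · rw [if_neg h2]
          by_cases h3 : t = i
          · subst h3
            rw [if_pos rfl]
            omega
          · rw [if_neg h3]
            omega
      · intro t _
        unfold a2
        by_cases h3 : t = i
        · simp [h3]
        · simp [h3]
    have h2 : Bt θ k (a2 a i) b i := (hBTA θ hAθ).2.1 k b (a2 a i) i (Bt.mono hle h1)
    have hbb : L1 θ k b b := RR.refl _
    exact (hBTF θ k a (a2 a i) b b haL hbb).2 i h2

end Pool.Agent.MWA.H59
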